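import Mathlib

set_option autoImplicit false

/-!
# Degrees after a base change
-/

namespace Pool.Agent.V11286.LDeg

open Polynomial Module IntermediateField

/-- an intermediate field that is normal over the base field -/
def NormSub {K L : Type*} [Field K] [Field L] [Algebra K L] (F : IntermediateField K L) : Prop :=
  Normal K F

theorem degree_le {K Ω Kv L : Type*} [Field K] [Field Ω] [Field Kv] [Field L] [CharZero K]
    [Algebra K Ω] [Algebra K Kv] [Algebra Kv L] [Algebra K L] [IsScalarTower K Kv L]
    [IsAlgClosed L] (ι : Ω →ₐ[K] L) (M : IntermediateField K Ω) [FiniteDimensional K M]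
    (hnorm : NormSub M)
    (hM : ∀ M' : IntermediateField K Ω, M' ≤ M →
      (∀ x ∈ M', ι x ∈ Set.range (algebraMap Kv L)) → M' = ⊥)
    (T : IntermediateField Kv L) [FiniteDimensional Kv T] (hT : ∀ x ∈ M, ι x ∈ T) :
    finrank K M ≤ finrank Kv T := by
  classical
  unfold NormSub at hnorm
  obtain ⟨θ, hθ⟩ := Field.exists_primitive_element K M
  have hθint : IsIntegral K θ := IsIntegral.of_finite K θ
  have hfr : (minpoly K θ).natDegree = finrank K M := by
    rw [← adjoin.finrank hθint, hθ, finrank_top']
  let t : T := ⟨ι (θ : Ω), hT θ θ.2⟩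
  have htint : IsIntegral Kv t := IsIntegral.of_finite Kv t
  have hgT : (minpoly Kv t).natDegree ≤ finrank Kv T := minpoly.natDegree_le t
  set g : Kv[X] := minpoly Kv t with hg
  have hgL : g = minpoly Kv (ι (θ : Ω)) := (minpoly.algebraMap_eq (algebraMap T L).injective t).symm
  have hgmon : g.Monic := minpoly.monic htint
  let j : M →+* L := (ι : Ω →+* L).comp (algebraMap M Ω)
  have hj : j.comp (algebraMap K M) = algebraMap K L := by
    ext x
    show ι (algebraMap M Ω (algebraMap K M x)) = _
    rw [← IsScalarTower.algebraMap_apply, AlgHom.commutes]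
  -- `g` divides the minimal polynomial over `K`
  have hdvd : g ∣ (minpoly K θ).map (algebraMap K Kv) := by
    rw [hgL]
    apply minpoly.dvd
    rw [aeval_map_algebraMap]
    have h1 : aeval (ι (θ : Ω)) (minpoly K θ) = j (aeval θ (minpoly K θ)) := by
      rw [aeval_def, aeval_def, hom_eval₂, hj]
      rfl
    rw [h1, minpoly.aeval, map_zero]
  have hsplit : ((minpoly K θ).map (algebraMap K M)).Splits := Normal.splits inferInstance θ
  have hfL : ((minpoly K θ).map (algebraMap K Kv)).map (algebraMap Kv L) =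
      (((minpoly K θ).map (algebraMap K M)).map j) := by
    rw [Polynomial.map_map, Polynomial.map_map, hj, ← IsScalarTower.algebraMap_eq]
  have hroots : ∀ r ∈ (g.map (algebraMap Kv L)).roots, ∃ x : M, j x = r := by
    intro r hr
    have hf0 : (((minpoly K θ).map (algebraMap K M)).map j) ≠ 0 :=
      (((minpoly.monic hθint).map _).map _).ne_zero
    have h1 : g.map (algebraMap Kv L) ∣ (((minpoly K θ).map (algebraMap K M)).map j) := by
      rw [← hfL]
      exact Polynomial.map_dvd _ hdvd
    have h2 : r ∈ ((((minpoly K θ).map (algebraMap K M)).map j)).roots :=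
      Multiset.mem_of_le (roots.le_of_dvd hf0 h1) hr
    rw [hsplit.roots_map] at h2
    obtain ⟨x, _, hx⟩ := Multiset.mem_map.mp h2
    exact ⟨x, hx⟩
  have hlift : g.map (algebraMap Kv L) ∈ Polynomial.lifts j := by
    have h1 := (IsAlgClosed.splits (g.map (algebraMap Kv L))).eq_prod_roots
    rw [(hgmon.map _).leadingCoeff, C_1, one_mul] at h1
    rw [h1]
    apply multiset_prod_mem
    intro q hq
    obtain ⟨r, hr, rfl⟩ := Multiset.mem_map.mp hq
    obtain ⟨x, rfl⟩ := hroots r hr
    exact ⟨X - C x, by simp⟩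
  rw [Polynomial.lifts_iff_coeff_lifts] at hlift
  -- the subfield of `M` that lands in `Kv`
  let M' : IntermediateField K Ω := M ⊓ ((IsScalarTower.toAlgHom K Kv L).fieldRange).comap ι
  have hM' : M' = ⊥ := by
    apply hM M' inf_le_left
    intro x hx
    obtain ⟨y, hy⟩ : ι x ∈ (IsScalarTower.toAlgHom K Kv L).fieldRange := hx.2
    exact ⟨y, hy⟩
  have hglift : g ∈ Polynomial.lifts (algebraMap K Kv) := by
    rw [Polynomial.lifts_iff_coeff_lifts]
    intro i
    obtain ⟨x, hx⟩ := hlift i
    rw [coeff_map] at hx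
    have hxM : (x : Ω) ∈ M' := by
      refine ⟨x.2, ?_⟩
      show ι (x : Ω) ∈ (IsScalarTower.toAlgHom K Kv L).fieldRange
      exact ⟨g.coeff i, hx.symm⟩
    rw [hM', mem_bot] at hxM
    obtain ⟨c, hc⟩ := hxM
    refine ⟨c, ?_⟩
    apply (algebraMap Kv L).injective
    rw [← hx, ← IsScalarTower.algebraMap_apply]
    show algebraMap K L c = ι (x : Ω)
    rw [← hc, AlgHom.commutes]
  obtain ⟨G, hG⟩ := (Polynomial.mem_lifts _).mp hglift
  have hGdeg : G.natDegree = g.natDegree := by rw [← hG, natDegree_map]
  have hG0 : G ≠ 0 := by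
    rintro rfl
    rw [Polynomial.map_zero] at hG
    exact hgmon.ne_zero hG.symm
  have hGθ : aeval θ G = 0 := by
    apply j.injective
    rw [map_zero]
    have h1 : j (aeval θ G) = aeval (ι (θ : Ω)) g := by
      rw [← hG, aeval_map_algebraMap, aeval_def, aeval_def, hom_eval₂, hj]
      rfl
    rw [h1, hgL, minpoly.aeval]
  have h2 : (minpoly K θ).natDegree ≤ G.natDegree :=
    natDegree_le_of_dvd (minpoly.dvd K θ hGθ) hG0
  omega

end Pool.Agent.V11286.LDeg
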