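import Mathlib

set_option autoImplicit false

/-!
# Squares in completions
-/

namespace Pool.Agent.V11286.LDeg

open IsDedekindDomain IsDedekindDomain.HeightOneSpectrum NumberField WithZero

theorem sq_mod {R K : Type*} [CommRing R] [IsDedekindDomain R] [Field K] [Algebra R K]
    [IsFractionRing R K] (v : HeightOneSpectrum R) (a : R) (y : v.adicCompletion K)
    (hy : y ^ 2 = algebraMap K (v.adicCompletion K) (algebraMap R K a)) :
    ∃ x : R, x ^ 2 - a ∈ v.asIdeal := by
  have hval : ∀ k : K, Valued.v (algebraMap K (v.adicCompletion K) k) = v.valuation K k :=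
    fun k => valuedAdicCompletion_eq_valuation' v k
  have hy1 : Valued.v y ≤ 1 := by
    have h1 : Valued.v y ^ 2 ≤ 1 := by
      rw [← map_pow, hy, hval]
      exact valuation_le_one v a
    by_contra hcon
    push Not at hcon
    have h2 : 1 < Valued.v y ^ 2 := one_lt_pow₀ hcon (by norm_num)
    exact absurd h1 (not_le.mpr h2)
  have hopen : IsOpen {z : v.adicCompletion K | Valued.v (z - y) < 1} := by
    have h1 : IsOpen {z : v.adicCompletion K | Valued.v z < 1} := by
      have h2 := Valued.isOpen_ball (v.adicCompletion K) (Γ₀ := ℤᵐ⁰) 1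
      simp only [Valuation.restrict_lt_one_iff] at h2
      exact h2
    exact h1.preimage (continuous_id.sub continuous_const)
  have hmem : y ∈ {z : v.adicCompletion K | Valued.v (z - y) < 1} := by
    show Valued.v (y - y) < 1
    rw [sub_self, map_zero]
    exact zero_lt_one
  obtain ⟨k, hk⟩ := (denseRange_algebraMap K v).exists_mem_open hopen ⟨y, hmem⟩
  have hk' : Valued.v (algebraMap K (v.adicCompletion K) k - y) < 1 := hk
  have hk1 : v.valuation K k ≤ 1 := by
    rw [← hval]
    have h1 : algebraMap K (v.adicCompletion K) k =
        (algebraMap K (v.adicCompletion K) k - y) + y := by ring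
    rw [h1]
    exact (Valuation.map_add _ _ _).trans (max_le hk'.le hy1)
  obtain ⟨x, hx⟩ := exists_valuation_sub_lt_of_integer v hk1 1
  refine ⟨x, ?_⟩
  have hxy : Valued.v (algebraMap K (v.adicCompletion K) (algebraMap R K x) - y) < 1 := by
    have h1 : algebraMap K (v.adicCompletion K) (algebraMap R K x) - y =
        algebraMap K (v.adicCompletion K) (algebraMap R K x - k) +
          (algebraMap K (v.adicCompletion K) k - y) := by
      rw [map_sub]; ring
    rw [h1]
    refine lt_of_le_of_lt (Valuation.map_add _ _ _) (max_lt ?_ hk')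
    rw [hval]
    exact_mod_cast hx
  have hx1 : Valued.v (algebraMap K (v.adicCompletion K) (algebraMap R K x) + y) ≤ 1 := by
    refine (Valuation.map_add _ _ _).trans (max_le ?_ hy1)
    rw [hval]
    exact valuation_le_one v x
  have h2 : v.valuation K (algebraMap R K (x ^ 2 - a)) < 1 := by
    rw [← hval]
    have h3 : algebraMap K (v.adicCompletion K) (algebraMap R K (x ^ 2 - a)) =
        (algebraMap K (v.adicCompletion K) (algebraMap R K x) - y) *
        (algebraMap K (v.adicCompletion K) (algebraMap R K x) + y) := by
      rw [map_sub, map_sub, ← hy, map_pow, map_pow]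
      ring
    rw [h3, map_mul]
    exact mul_lt_one_of_nonneg_of_lt_one_left zero_le hxy hx1
  exact (valuation_lt_one_iff_mem v _).mp h2

end Pool.Agent.V11286.LDeg
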