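import Mathlib
import Pool.Agent.H58P.Loc

set_option autoImplicit false

/-!
# Cyclic fields of degree `2 ^ n` and prime conductor
-/

namespace Pool.Agent.V11286.LDeg

open Polynomial NumberField Module IntermediateField
open Pool.Agent.H58P (Qb qb_isIntegral)

/-- an intermediate field that is Galois over the base field -/
def GalSub {K L : Type*} [Field K] [Field L] [Algebra K L] (F : IntermediateField K L) : Prop :=
  IsGalois K F

lemma galSub_lift {K L : Type*} [Field K] [Field L] [Algebra K L] {E : IntermediateField K L}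
    (F : IntermediateField K E) (hF : GalSub F) : GalSub (lift F) := by
  unfold GalSub at hF
  exact IsGalois.of_algEquiv (liftAlgEquiv F)

lemma fin_mul (K C : Type*) [Field K] [Field C] [Algebra K C] (F : IntermediateField K C) :
    finrank K F * finrank F C = finrank K C := finrank_mul_finrank K F C

lemma gal_sub (K C : Type*) [Field K] [Field C] [Algebra K C] [IsAbelianGalois K C]
    (F : IntermediateField K C) : GalSub F := by
  have h : IsAbelianGalois K F := inferInstance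
  exact h.toIsGalois

/-- subfields of a cyclic field -/
lemma cyclic_sub (K C : Type*) [Field K] [Field C] [Algebra K C] [FiniteDimensional K C]
    [IsAbelianGalois K C] [IsCyclic Gal(C/K)]
    (n : ℕ) (hn : 2 ^ n ∣ finrank K C) (a : K) (s : C) (hs : s ^ 2 = algebraMap K C a) :
    ∃ F : IntermediateField K C, finrank K F = 2 ^ n ∧ GalSub F ∧
      ∀ M : IntermediateField K C, M ≤ F → M ≠ ⊥ → s ∈ M := by
  classical
  obtain ⟨g, hg⟩ := IsCyclic.exists_generator (α := Gal(C/K))
  have hgN : orderOf g = finrank K C := by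
    rw [← IsGalois.card_aut_eq_finrank]
    exact orderOf_eq_card_of_forall_mem_zpowers hg
  have hNpos : 0 < finrank K C := finrank_pos
  have h2pos : 0 < 2 ^ n := by positivity
  refine ⟨fixedField (Subgroup.zpowers (g ^ 2 ^ n)), ?_, gal_sub K C _, ?_⟩
  · have h1 := finrank_fixedField_eq_card (Subgroup.zpowers (g ^ 2 ^ n))
    rw [Nat.card_zpowers, orderOf_pow, hgN, Nat.gcd_eq_right hn] at h1
    have h2 := fin_mul K C (fixedField (Subgroup.zpowers (g ^ 2 ^ n)))
    rw [h1] at h2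
    obtain ⟨c, hc⟩ := hn
    rw [hc, Nat.mul_div_cancel_left _ h2pos] at h2
    have hcpos : 0 < c := by
      rcases Nat.eq_zero_or_pos c with h | h
      · rw [h, mul_zero] at hc; omega
      · exact h
    exact Nat.eq_of_mul_eq_mul_right hcpos h2
  · intro M hM hMne
    have hsub : Subgroup.zpowers (g ^ 2 ^ n) ≤ M.fixingSubgroup := (le_iff_le _ _).mp hM
    have hg2 : g ^ 2 ^ n ∈ M.fixingSubgroup := hsub (Subgroup.mem_zpowers _)
    rw [← IsGalois.fixedField_fixingSubgroup M, mem_fixedField_iff]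
    intro σ hσ
    obtain ⟨j, hj⟩ := hg σ
    simp only at hj
    rcases Int.even_or_odd j with he | ho
    · obtain ⟨m, hm⟩ := he
      have h3 : σ = g ^ m * g ^ m := by rw [← hj, hm, zpow_add]
      have h4 : ∀ τ : Gal(C/K), τ s = s ∨ τ s = -s := by
        intro τ
        have h5 : (τ s) ^ 2 = s ^ 2 := by rw [← map_pow, hs, AlgEquiv.commutes]
        exact sq_eq_sq_iff_eq_or_eq_neg.mp h5
      rw [h3, AlgEquiv.mul_apply]
      rcases h4 (g ^ m) with h | h
      · rw [h, h]
      · rw [h, map_neg, h, neg_neg]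
    · exfalso
      apply hMne
      have hco : IsCoprime j ((2 : ℤ) ^ n) := by
        apply IsCoprime.pow_right
        obtain ⟨m, hm⟩ := ho
        exact ⟨1, -m, by rw [hm]; ring⟩
      obtain ⟨u, v, huv⟩ := hco
      have hgM : g ∈ M.fixingSubgroup := by
        have h5 : g = (g ^ j) ^ u * (g ^ 2 ^ n) ^ v := by
          rw [← zpow_mul, ← zpow_natCast g (2 ^ n), ← zpow_mul, ← zpow_add]
          have h6 : j * u + ((2 ^ n : ℕ) : ℤ) * v = 1 := by push_cast; linarith
          rw [h6, zpow_one]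
        rw [h5]
        apply mul_mem
        · apply zpow_mem
          rw [hj]
          exact hσ
        · exact zpow_mem hg2 _
      have htop : M.fixingSubgroup = ⊤ := by
        rw [eq_top_iff]
        intro τ _
        obtain ⟨i, hi⟩ := hg τ
        simp only at hi
        rw [← hi]
        exact zpow_mem hgM _
      rw [← IsGalois.fixedField_fixingSubgroup M, htop]
      exact IsGalois.fixedField_top

/-- the square root of a prime `1` modulo `4` as a Gauss sum -/
lemma exists_sqrt (C : Type*) [Field C] [CharZero C] (l : ℕ) (hl : l.Prime) (h4 : 4 ∣ l - 1)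
    (ζ : C) (hζ : IsPrimitiveRoot ζ l) : ∃ s : C, s ^ 2 = l := by
  classical
  have : Fact l.Prime := ⟨hl⟩
  have hl2 : l ≠ 2 := by
    rintro rfl
    norm_num at h4
  have hl1 : 1 < l := hl.one_lt
  have hring : ringChar (ZMod l) ≠ 2 := by rwa [ZMod.ringChar_zmod_n]
  let χ : MulChar (ZMod l) C := (quadraticChar (ZMod l)).ringHomComp (Int.castRingHom C)
  have hχ1 : χ ≠ 1 := (MulChar.ringHomComp_ne_one_iff (RingHom.injective_int _)).mpr
    (quadraticChar_ne_one hring)
  have hχ2 : χ.IsQuadratic := (quadraticChar_isQuadratic (ZMod l)).comp _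
  have hψ := AddChar.zmodChar_primitive_of_primitive_root l hζ
  refine ⟨_, (gaussSum_sq hχ1 hχ2 hψ).trans ?_⟩
  have h5 : χ (-1) = 1 := by
    show Int.castRingHom C (quadraticChar (ZMod l) (-1)) = 1
    rw [quadraticChar_neg_one hring, ZMod.card, ZMod.χ₄_nat_one_mod_four (by omega)]
    simp
  rw [h5, one_mul, ZMod.card]

theorem exists_cyclic (l n : ℕ) (hl : l.Prime) (hdiv : 2 ^ n ∣ l - 1) (h4 : 4 ∣ l - 1) :
    ∃ F : IntermediateField ℚ Qb, FiniteDimensional ℚ F ∧ GalSub F ∧ finrank ℚ F = 2 ^ n ∧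
      (∀ M : IntermediateField ℚ Qb, M ≤ F → M ≠ ⊥ → ∃ s ∈ M, s ^ 2 = (l : Qb)) ∧
      ∀ [NumberField F], ∃ e : ℕ, discr F ∣ (l : ℤ) ^ e := by
  have : NeZero l := ⟨hl.ne_zero⟩
  have : Fact l.Prime := ⟨hl⟩
  obtain ⟨ζ, hζ⟩ := HasEnoughRootsOfUnity.exists_primitiveRoot Qb l
  have hint : Algebra.IsIntegral ℚ Qb := ⟨qb_isIntegral⟩
  have hcyc : IsCyclotomicExtension {l} ℚ ℚ⟮ζ⟯ :=
    hζ.intermediateField_adjoin_isCyclotomicExtension ℚ
  have hnf : NumberField ℚ⟮ζ⟯ := IsCyclotomicExtension.numberField {l} ℚ _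
  have hab : IsAbelianGalois ℚ ℚ⟮ζ⟯ := IsCyclotomicExtension.isAbelianGalois {l} ℚ _
  have e := IsCyclotomicExtension.Rat.galEquivZMod l ℚ⟮ζ⟯
  have hcy : IsCyclic Gal(ℚ⟮ζ⟯/ℚ) := isCyclic_of_injective e.toMonoidHom e.injective
  have hfr : finrank ℚ ℚ⟮ζ⟯ = l - 1 := by
    rw [IsCyclotomicExtension.Rat.finrank l, Nat.totient_prime hl]
  have hζ' : IsPrimitiveRoot (AdjoinSimple.gen ℚ ζ) l :=
    IsPrimitiveRoot.coe_submonoidClass_iff.mp hζ
  obtain ⟨s, hs⟩ := exists_sqrt ℚ⟮ζ⟯ l hl h4 _ hζ'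
  obtain ⟨F, hF1, hF0, hF2⟩ := cyclic_sub ℚ ℚ⟮ζ⟯ n (by rw [hfr]; exact hdiv) (l : ℚ) s
    (by rw [hs, map_natCast])
  have eF := liftAlgEquiv F
  have hLF : GalSub (lift F) := galSub_lift F hF0
  refine ⟨lift F, eF.toLinearEquiv.finiteDimensional, hLF, ?_, ?_, ?_⟩
  · rw [← hF1]
    exact eF.toLinearEquiv.finrank_eq.symm
  · intro M hM hMne
    have hMC : M ≤ ℚ⟮ζ⟯ := hM.trans (lift_le F)
    have h5 : M.restrict hMC ≤ F := by
      intro x hx
      have h8 : (x : Qb) ∈ lift F := hM ((mem_restrict hMC x).mp hx)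
      exact (mem_lift x).mp h8
    have h6 : M.restrict hMC ≠ ⊥ := by
      intro h
      apply hMne
      rw [← lift_restrict hMC, h, lift_bot]
    have h7 := hF2 _ h5 h6
    refine ⟨(s : Qb), (mem_restrict hMC s).mp h7, ?_⟩
    have := congrArg (fun x : ℚ⟮ζ⟯ => (x : Qb)) hs
    simpa using this
  · intro _
    refine ⟨l - 2, ?_⟩
    have h5 : discr (lift F) = discr F := (NumberField.discr_eq_discr_of_algEquiv _ eF).symm
    have h6 : discr F ∣ discr ℚ⟮ζ⟯ := NumberField.discr_dvd_discr F ℚ⟮ζ⟯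
    rw [IsCyclotomicExtension.Rat.discr_prime l ℚ⟮ζ⟯] at h6
    rw [h5]
    have h7 : IsUnit ((-1 : ℤ) ^ ((l - 1) / 2)) := (isUnit_one.neg).pow _
    exact (h7.dvd_mul_left).mp h6

end Pool.Agent.V11286.LDeg
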