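import Mathlib

set_option autoImplicit false

/-!
# Primes that are `1` modulo a power of two and non-residues modulo given primes
-/

namespace Pool.Agent.V11286.LDeg

lemma exists_nonres (p : ℕ) (hp : p.Prime) (hp2 : p ≠ 2) :
    ∃ a : ℕ, ∀ m : ℤ, ¬ ((p : ℤ) ∣ m ^ 2 - a) := by
  have : Fact p.Prime := ⟨hp⟩
  obtain ⟨a, ha⟩ := FiniteField.exists_nonsquare (F := ZMod p) (by rwa [ZMod.ringChar_zmod_n])
  refine ⟨a.val, fun m hm => ha ⟨(m : ZMod p), ?_⟩⟩
  have h1 := (ZMod.intCast_zmod_eq_zero_iff_dvd (m ^ 2 - (a.val : ℤ)) p).mpr hm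
  have h2 : (m : ZMod p) ^ 2 - a = 0 := by
    have e : ((m ^ 2 - (a.val : ℤ) : ℤ) : ZMod p) = (m : ZMod p) ^ 2 - a := by
      push_cast
      rw [ZMod.natCast_zmod_val]
    rw [← e]
    exact h1
  rw [← sq]
  exact (sub_eq_zero.mp h2).symm

/-- primes with prescribed quadratic behaviour -/
theorem exists_prime (k B : ℕ) : ∃ l : ℕ, B < l ∧ l.Prime ∧ 2 ^ (k + 2) ∣ l - 1 ∧
    ∀ p : ℕ, p.Prime → p ≠ 2 → p ≤ k → ∀ m : ℤ, ¬ ((p : ℤ) ∣ m ^ 2 - l) := by
  classical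
  have h0 : ∀ p : ℕ, ∃ a : ℕ, p.Prime → p ≠ 2 → ∀ m : ℤ, ¬ ((p : ℤ) ∣ m ^ 2 - a) := by
    intro p
    by_cases h : p.Prime ∧ p ≠ 2
    · obtain ⟨a, ha⟩ := exists_nonres p h.1 h.2
      exact ⟨a, fun _ _ => ha⟩
    · exact ⟨0, fun h1 h2 => absurd ⟨h1, h2⟩ h⟩
  choose r hr using h0
  let t : Finset ℕ := insert 2 ((Finset.range (k + 1)).filter Nat.Prime)
  have ht : ∀ i ∈ t, i.Prime := by
    intro i hi
    rcases Finset.mem_insert.mp hi with h | h
    · rw [h]; exact Nat.prime_two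
    · exact (Finset.mem_filter.mp h).2
  let s : ℕ → ℕ := fun i => if i = 2 then 2 ^ (k + 2) else i
  let a : ℕ → ℕ := fun i => if i = 2 then 1 else r i
  have hs : ∀ i ∈ t, s i ≠ 0 := by
    intro i hi
    show (if i = 2 then 2 ^ (k + 2) else i) ≠ 0
    split_ifs
    · positivity
    · exact (ht i hi).ne_zero
  have hdvd : ∀ i, s i ∣ i ^ (k + 2) := by
    intro i
    show (if i = 2 then 2 ^ (k + 2) else i) ∣ i ^ (k + 2)
    split_ifs with h
    · rw [h]
    · exact dvd_pow_self _ (by omega)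
  have pp : Set.Pairwise (t : Set ℕ) (Function.onFun Nat.Coprime s) := by
    intro i hi j hj hij
    have h1 : Nat.Coprime i j := (Nat.coprime_primes (ht i hi) (ht j hj)).mpr hij
    have h2 : Nat.Coprime (i ^ (k + 2)) (j ^ (k + 2)) := h1.pow _ _
    exact Nat.Coprime.of_dvd (hdvd i) (hdvd j) h2
  obtain ⟨x, hx⟩ := Nat.chineseRemainderOfFinset a s t hs pp
  -- `x` is coprime to the modulus
  have hcop : ∀ i ∈ t, Nat.Coprime x (s i) := by
    intro i hi
    have h1 := hx i hi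
    by_cases h : i = 2
    · have e1 : s i = 2 ^ (k + 2) := if_pos h
      have e2 : a i = 1 := if_pos h
      rw [e1, e2] at h1
      rw [e1]
      apply Nat.Coprime.pow_right
      have h2 : x ≡ 1 [MOD 2] := h1.of_dvd (dvd_pow_self _ (by omega))
      have h3 : x % 2 = 1 := h2
      exact Nat.coprime_two_right.mpr (Nat.odd_iff.mpr h3)
    · have e1 : s i = i := if_neg h
      have e2 : a i = r i := if_neg h
      rw [e1, e2] at h1
      rw [e1]
      rw [Nat.coprime_comm, (ht i hi).coprime_iff_not_dvd]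
      intro hdiv
      apply hr i (ht i hi) h 0
      have h2 : r i ≡ 0 [MOD i] := h1.symm.trans ((Nat.modEq_zero_iff_dvd).mpr hdiv)
      have h3 : i ∣ r i := (Nat.modEq_zero_iff_dvd).mp h2
      have h4 : (i : ℤ) ∣ (r i : ℤ) := by exact_mod_cast h3
      simpa using h4
  have hcop2 : x.Coprime (∏ i ∈ t, s i) := Nat.Coprime.prod_right hcop
  have hne : (∏ i ∈ t, s i) ≠ 0 := Finset.prod_ne_zero_iff.mpr hs
  obtain ⟨l, hl1, hl2, hl3⟩ := Nat.forall_exists_prime_gt_and_modEq B hne hcop2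
  refine ⟨l, hl1, hl2, ?_, ?_⟩
  · have h2t : 2 ∈ t := Finset.mem_insert_self _ _
    have h3 : l ≡ x [MOD s 2] := hl3.of_dvd (Finset.dvd_prod_of_mem s h2t)
    have h4 := h3.trans (hx 2 h2t)
    have e1 : s 2 = 2 ^ (k + 2) := if_pos rfl
    have e2 : a 2 = 1 := if_pos rfl
    rw [e1, e2] at h4
    exact (Nat.modEq_iff_dvd' hl2.one_lt.le).mp h4.symm
  · intro p hp hp2 hpk m hm
    have hpt : p ∈ t := Finset.mem_insert_of_mem
      (Finset.mem_filter.mpr ⟨Finset.mem_range.mpr (by omega), hp⟩)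
    have h3 : l ≡ x [MOD s p] := hl3.of_dvd (Finset.dvd_prod_of_mem s hpt)
    have h4 := h3.trans (hx p hpt)
    have e1 : s p = p := if_neg hp2
    have e2 : a p = r p := if_neg hp2
    rw [e1, e2] at h4
    apply hr p hp hp2 m
    have h5 : (p : ℤ) ∣ (r p : ℤ) - l := Nat.modEq_iff_dvd.mp h4
    have h6 : m ^ 2 - (r p : ℤ) = (m ^ 2 - l) - ((r p : ℤ) - l) := by ring
    rw [h6]
    exact dvd_sub hm h5

end Pool.Agent.V11286.LDeg
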