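import Mathlib
import Pool.Agent.V11286.LDeg.Dir
import Pool.Agent.V11286.LDeg.Cyc
import Pool.Agent.V11286.LDeg.Small

set_option autoImplicit false

/-!
# One step of the tower
-/

namespace Pool.Agent.V11286.LDeg

open Polynomial NumberField Module IntermediateField
open Pool.Agent.Helper259.AbsHt
open Pool.Agent.H58P (Qb ht qb_isIntegral)

lemma nf (A : IntermediateField ℚ Qb) [FiniteDimensional ℚ A] : NumberField A :=
  { to_charZero := inferInstance
    to_finiteDimensional := by assumption }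

lemma discr_dvd (A B : IntermediateField ℚ Qb) [NumberField A] [NumberField B] (h : A ≤ B) :
    discr A ∣ discr B := by
  let _ : Algebra A B := (inclusion h).toRingHom.toAlgebra
  exact NumberField.discr_dvd_discr A B

lemma ld_of_inf {K L : Type*} [Field K] [Field L] [Algebra K L] (A B : IntermediateField K L)
    (hA : GalSub A) [FiniteDimensional K A] [FiniteDimensional K B] (h : A ⊓ B = ⊥) :
    A.LinearDisjoint B := by
  unfold GalSub at hA
  exact IntermediateField.LinearDisjoint.of_inf_eq_bot h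

lemma ld (A B : IntermediateField ℚ Qb) [FiniteDimensional ℚ A] [FiniteDimensional ℚ B]
    [NumberField A] [NumberField B]
    (hA : GalSub A) (h : IsCoprime (discr A) (discr B)) : A.LinearDisjoint B := by
  apply ld_of_inf A B hA
  have hfd : FiniteDimensional ℚ ↥(A ⊓ B) :=
    FiniteDimensional.of_injective (inclusion (inf_le_left : A ⊓ B ≤ A)).toLinearMap
      (inclusion (inf_le_left : A ⊓ B ≤ A)).toRingHom.injective
  have hnf : NumberField ↥(A ⊓ B) := nf _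
  have hu : IsUnit (discr ↥(A ⊓ B)) :=
    h.isUnit_of_dvd' (discr_dvd _ _ inf_le_left) (discr_dvd _ _ inf_le_right)
  by_contra hne
  have h1 : 1 < finrank ℚ ↥(A ⊓ B) := by
    refine Nat.one_lt_iff_ne_zero_and_ne_one.mpr ⟨finrank_pos.ne', ?_⟩
    intro h2
    exact hne (IntermediateField.finrank_eq_one_iff.mp h2)
  have h3 := abs_discr_gt_two h1
  have h4 := Int.isUnit_iff_abs_eq.mp hu
  omega

lemma deg_le (A : IntermediateField ℚ Qb) [FiniteDimensional ℚ A] (x : Qb) (hx : x ∈ A) :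
    (minpoly ℚ x).natDegree ≤ finrank ℚ A := by
  have h2 : minpoly ℚ x = minpoly ℚ (⟨x, hx⟩ : A) := by
    rw [← minpoly.algebraMap_eq (algebraMap A Qb).injective]
    rfl
  rw [h2]
  exact minpoly.natDegree_le _

theorem step (E : IntermediateField ℚ Qb) [FiniteDimensional ℚ E] (k : ℕ) :
    ∃ (l : ℕ) (F : IntermediateField ℚ Qb), l.Prime ∧
      (∀ p : ℕ, p.Prime → p ≠ 2 → p ≤ k → ∀ m : ℤ, ¬ ((p : ℤ) ∣ m ^ 2 - l)) ∧
      FiniteDimensional ℚ F ∧ GalSub F ∧ finrank ℚ F = 2 ^ (k + 2) ∧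
      (∀ M : IntermediateField ℚ Qb, M ≤ F → M ≠ ⊥ → ∃ s ∈ M, s ^ 2 = (l : Qb)) ∧
      ∀ α ∈ E ⊔ F, α ∉ E → (k : ℝ) < ht α := by
  classical
  set D : ℕ := finrank ℚ E * 2 ^ (k + 2) with hD
  have hA := Pool.Agent.H58W.northcott D k
  set A : Finset Qb := hA.toFinset with hAdef
  have hbad : ∀ α : Qb, ∃ n : ℕ, ∀ [NumberField ↥(E ⊔ ℚ⟮α⟯)], ∀ l : ℕ, l.Prime → n < l →
      ¬ ((l : ℤ) ∣ discr ↥(E ⊔ ℚ⟮α⟯)) := by
    intro α
    have hfα : FiniteDimensional ℚ ℚ⟮α⟯ := adjoin.finiteDimensional (qb_isIntegral α)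
    have hnf : NumberField ↥(E ⊔ ℚ⟮α⟯) := nf _
    refine ⟨(discr ↥(E ⊔ ℚ⟮α⟯)).natAbs, ?_⟩
    intro _ l hl hnl hdvd
    have h1 : l ∣ (discr ↥(E ⊔ ℚ⟮α⟯)).natAbs := Int.natCast_dvd.mp hdvd
    have h2 : (discr ↥(E ⊔ ℚ⟮α⟯)).natAbs ≠ 0 := by
      rw [Ne, Int.natAbs_eq_zero]
      exact NumberField.discr_ne_zero _
    exact absurd (Nat.le_of_dvd (Nat.pos_of_ne_zero h2) h1) (by omega)
  choose n hn using hbad
  obtain ⟨l, hlB, hl, hl4, hres⟩ := exists_prime k (∑ α ∈ A, n α)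
  have h4 : 4 ∣ l - 1 := (Dvd.intro_left (2 ^ k) (by rw [pow_add]; norm_num)).trans hl4
  obtain ⟨F, hFfd, hFgal, hFfr, hFsub, hFdis⟩ := exists_cyclic l (k + 2) hl hl4 h4
  refine ⟨l, F, hl, hres, hFfd, hFgal, hFfr, hFsub, ?_⟩
  intro α hα hαE
  by_contra hcon
  push Not at hcon
  apply hαE
  have hfr : finrank ℚ ↥(E ⊔ F) ≤ D := by
    have := IntermediateField.finrank_sup_le E F
    rwa [hFfr] at this
  have hαA : α ∈ A := by
    rw [hAdef, Set.Finite.mem_toFinset]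
    exact ⟨(deg_le _ α hα).trans hfr, hcon⟩
  have hnα : n α < l := lt_of_le_of_lt (Finset.single_le_sum (fun _ _ => Nat.zero_le _) hαA) hlB
  have hfα : FiniteDimensional ℚ ℚ⟮α⟯ := adjoin.finiteDimensional (qb_isIntegral α)
  have hnf : NumberField ↥(E ⊔ ℚ⟮α⟯) := nf _
  have hnfF : NumberField F := nf _
  have h5 := hn α l hl hnα
  obtain ⟨e, he⟩ := hFdis
  have hco : IsCoprime (discr F) (discr ↥(E ⊔ ℚ⟮α⟯)) := by
    apply IsCoprime.of_isCoprime_of_dvd_left _ he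
    apply IsCoprime.pow_left
    exact ((Nat.prime_iff_prime_int.mp hl).coprime_iff_not_dvd).mpr h5
  have hld := ld F (E ⊔ ℚ⟮α⟯) hFgal hco
  have h6 := hld.finrank_sup
  have h7 : F ⊔ (E ⊔ ℚ⟮α⟯) = E ⊔ F := by
    apply le_antisymm
    · refine sup_le le_sup_right (sup_le le_sup_left ?_)
      rw [adjoin_simple_le_iff]
      exact hα
    · exact sup_le (le_sup_left.trans le_sup_right) le_sup_left
  rw [h7, hFfr] at h6
  rw [h6, hD, mul_comm] at hfr
  have h8 : finrank ℚ ↥(E ⊔ ℚ⟮α⟯) ≤ finrank ℚ E :=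
    Nat.le_of_mul_le_mul_right hfr (by positivity)
  have h9 : E = E ⊔ ℚ⟮α⟯ := IntermediateField.eq_of_le_of_finrank_le le_sup_left h8
  rw [h9]
  exact (le_sup_right : ℚ⟮α⟯ ≤ _) (mem_adjoin_simple_self ℚ α)

end Pool.Agent.V11286.LDeg
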