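import Mathlib
import Pool.Agent.V11286.LDeg.Step

set_option autoImplicit false

/-!
# The tower
-/

namespace Pool.Agent.V11286.LDeg

open Polynomial NumberField Module IntermediateField
open Pool.Agent.Helper259.AbsHt
open Pool.Agent.H58P (Qb ht qb_isIntegral)

lemma galSub_iSup {K L : Type*} [Field K] [Field L] [Algebra K L] [CharZero K]
    {ι : Type*} (F : ι → IntermediateField K L) (hF : ∀ i, GalSub (F i)) : GalSub (⨆ i, F i) := by
  unfold GalSub at hF
  have h1 : ∀ i, Normal K (F i) := fun i => (hF i).to_normal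
  have h2 : Normal K (⨆ i, F i : IntermediateField K L) := IntermediateField.normal_iSup K L F
  exact
    { to_isSeparable := inferInstance
      to_normal := h2 }

/-- the properties of a layer -/
def Layer (k : ℕ) (M : IntermediateField ℚ Qb) : Prop :=
  ∃ l : ℕ, l.Prime ∧
    (∀ p : ℕ, p.Prime → p ≠ 2 → p ≤ k → ∀ m : ℤ, ¬ ((p : ℤ) ∣ m ^ 2 - l)) ∧
    FiniteDimensional ℚ M ∧ GalSub M ∧ finrank ℚ M = 2 ^ (k + 2) ∧
    (∀ M' : IntermediateField ℚ Qb, M' ≤ M → M' ≠ ⊥ → ∃ s ∈ M', s ^ 2 = (l : Qb))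

theorem tower : ∃ F : IntermediateField ℚ Qb, GalSub F ∧
    (∀ B : ℝ, {α : Qb | α ∈ F ∧ ht α ≤ B}.Finite) ∧
    ∀ k : ℕ, ∃ M : IntermediateField ℚ Qb, M ≤ F ∧ Layer k M := by
  classical
  let St : Type := {K : IntermediateField ℚ Qb // FiniteDimensional ℚ K}
  have hd : ∀ (k : ℕ) (x : St), ∃ M : IntermediateField ℚ Qb, Layer k M ∧
      ∀ α ∈ x.1 ⊔ M, α ∉ x.1 → (k : ℝ) < ht α := by
    rintro k ⟨E, hE⟩
    obtain ⟨l, M, h1, h2, h3, h4, h5, h6, h7⟩ := step E k
    exact ⟨M, ⟨l, h1, h2, h3, h4, h5, h6⟩, h7⟩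
  choose M hM1 hM2 using hd
  have hfd : ∀ k x, FiniteDimensional ℚ (M k x) := by
    intro k x
    obtain ⟨l, _, _, h3, _⟩ := hM1 k x
    exact h3
  let f : ℕ → St := fun i => Nat.rec (⟨⊥, inferInstance⟩ : St)
    (fun i x => ⟨x.1 ⊔ M i x, by
      have := x.2
      have := hfd i x
      infer_instance⟩) i
  have hsucc : ∀ k, (f (k + 1)).1 = (f k).1 ⊔ M k (f k) := fun k => rfl
  have hmono : Monotone fun i => (f i).1 := monotone_nat_of_le_succ fun i => le_sup_left
  have hle : ∀ k, (f k).1 ≤ ⨆ k, M k (f k) := by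
    intro k
    induction k with
    | zero => exact bot_le
    | succ k ih =>
      rw [hsucc]
      exact sup_le ih (le_iSup (fun k => M k (f k)) k)
  have hsup : (⨆ k, M k (f k)) = ⨆ k, (f k).1 := by
    apply le_antisymm
    · apply iSup_le
      intro k
      refine le_trans ?_ (le_iSup (fun k => (f k).1) (k + 1))
      show M k (f k) ≤ (f (k + 1)).1
      rw [hsucc]
      exact le_sup_right
    · exact iSup_le hle
  refine ⟨⨆ k, M k (f k), ?_, ?_, ?_⟩
  · apply galSub_iSup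
    intro k
    obtain ⟨l, _, _, _, h4, _⟩ := hM1 k (f k)
    exact h4
  · intro B
    have hkey : ∀ α : Qb, α ∈ (⨆ k, M k (f k)) → ht α ≤ B → α ∈ (f (⌈B⌉₊ + 1)).1 := by
      intro α hα hB
      rw [hsup] at hα
      have hex : ∃ k, α ∈ (f k).1 := by
        have hdir : Directed (· ≤ ·) fun k => (f k).1 := hmono.directed_le
        have h1 := IntermediateField.coe_iSup_of_directed hdir
        have h2 : α ∈ ((⨆ k, (f k).1 : IntermediateField ℚ Qb) : Set Qb) := hα
        rw [h1] at h2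
        simpa using h2
      rcases Nat.eq_zero_or_pos (Nat.find hex) with h0 | hpos
      · have h1 := Nat.find_spec hex
        exact hmono (by omega : Nat.find hex ≤ ⌈B⌉₊ + 1) h1
      · obtain ⟨j, hj⟩ : ∃ j, Nat.find hex = j + 1 := ⟨Nat.find hex - 1, by omega⟩
        have h1 := Nat.find_spec hex
        have h2 : α ∉ (f j).1 := Nat.find_min hex (by omega)
        rw [hj, hsucc] at h1
        have h3 := hM2 j (f j) α h1 h2
        have h4 : (j : ℝ) < B := lt_of_lt_of_le h3 hB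
        have h5 : j < ⌈B⌉₊ := Nat.lt_ceil.mpr h4
        have h6 := Nat.find_spec hex
        exact hmono (by omega : Nat.find hex ≤ ⌈B⌉₊ + 1) h6
    have hfin := Pool.Agent.H58W.northcott (finrank ℚ (f (⌈B⌉₊ + 1)).1) B
    refine hfin.subset ?_
    rintro α ⟨hα, hB⟩
    have := (f (⌈B⌉₊ + 1)).2
    exact ⟨deg_le _ α (hkey α hα hB), hB⟩
  · intro k
    exact ⟨M k (f k), le_iSup (fun k => M k (f k)) k, hM1 k (f k)⟩

end Pool.Agent.V11286.LDeg
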