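import Mathlib
import Pool.Agent.V11286.LDeg.Tower
import Pool.Agent.V11286.LDeg.Deg
import Pool.Agent.V11286.LDeg.Sq

set_option autoImplicit false

/-!
# Extension of scalars
-/

namespace Pool.Agent.V11286.LDeg

open Polynomial Module IntermediateField NumberField
open Pool.Agent.H58P (Qb ht qb_isIntegral)

lemma normSub_of_galSub {k L : Type*} [Field k] [Field L] [Algebra k L]
    (F : IntermediateField k L) (hF : GalSub F) : NormSub F := by
  unfold GalSub at hF
  exact hF.to_normal

theorem galois_ext {k L : Type*} [Field k] [Field L] [Algebra k L] (K F : IntermediateField k L)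
    (h : K ≤ F) (hF : GalSub F) : IsGalois K (extendScalars h) := by
  unfold GalSub at hF
  let e : F ≃ₐ[k] (extendScalars h) :=
    { toFun := fun x => ⟨x.1, x.2⟩
      invFun := fun x => ⟨x.1, x.2⟩
      left_inv := fun x => rfl
      right_inv := fun x => rfl
      map_mul' := fun x y => rfl
      map_add' := fun x y => rfl
      commutes' := fun x => rfl }
  have h1 : IsGalois k (extendScalars h) := IsGalois.of_algEquiv e
  exact IsGalois.tower_top_of_isGalois k K (extendScalars h)

/-- integers of the rational field inside `Qb` -/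
lemma int_bot (x : 𝓞 (⊥ : IntermediateField ℚ Qb)) : ∃ m : ℤ, x = (m : 𝓞 (⊥ : IntermediateField ℚ Qb)) := by
  have h1 : IsIntegral ℤ ((x : (⊥ : IntermediateField ℚ Qb)) : Qb) :=
    (RingOfIntegers.isIntegral_coe x).map (algebraMap (⊥ : IntermediateField ℚ Qb) Qb).toIntAlgHom
  obtain ⟨q, hq⟩ := mem_bot.mp (x : (⊥ : IntermediateField ℚ Qb)).2
  have h2 : IsIntegral ℤ q := by
    rw [← isIntegral_algebraMap_iff (algebraMap ℚ Qb).injective, hq]
    exact h1
  obtain ⟨m, hm⟩ := IsIntegrallyClosed.isIntegral_iff.mp h2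
  refine ⟨m, ?_⟩
  apply RingOfIntegers.ext
  apply Subtype.ext
  rw [← hq, ← hm]
  simp

open IsDedekindDomain

lemma exists_prime_mem {R : Type*} [CommRing R] (P : Ideal R) (hP : P.IsPrime) (n : ℕ) (hn : n ≠ 0)
    (hmem : (n : R) ∈ P) : ∃ p : ℕ, p.Prime ∧ (p : R) ∈ P := by
  induction n using Nat.recOnMul with
  | zero => exact absurd rfl hn
  | one =>
    exfalso
    apply hP.ne_top
    rw [Ideal.eq_top_iff_one]
    simpa using hmem
  | prime p hp => exact ⟨p, hp, hmem⟩
  | mul a b iha ihb =>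
    have ha : a ≠ 0 := left_ne_zero_of_mul hn
    have hb : b ≠ 0 := right_ne_zero_of_mul hn
    rw [Nat.cast_mul] at hmem
    rcases hP.mem_or_mem hmem with h | h
    · exact iha ha h
    · exact ihb hb h

lemma dvd_of_mem {R : Type*} [CommRing R] (P : Ideal R) (hP : P.IsPrime) (p : ℕ) (hp : p.Prime)
    (hmem : (p : R) ∈ P) (z : ℤ) (hz : (z : R) ∈ P) : (p : ℤ) ∣ z := by
  by_contra hcon
  have hco : IsCoprime (p : ℤ) z := ((Nat.prime_iff_prime_int.mp hp).coprime_iff_not_dvd).mpr hcon
  obtain ⟨a, b, hab⟩ := hco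
  apply hP.ne_top
  rw [Ideal.eq_top_iff_one]
  have h1 : (1 : R) = (a : R) * (p : R) + (b : R) * (z : R) := by
    have := congrArg (fun t : ℤ => (t : R)) hab
    push_cast at this
    exact this.symm
  rw [h1]
  exact P.add_mem (P.mul_mem_left _ hmem) (P.mul_mem_left _ hz)

theorem local_infinite (F : IntermediateField ℚ Qb)
    (hF : ∀ k : ℕ, ∃ M : IntermediateField ℚ Qb, M ≤ F ∧ Layer k M)
    [NumberField (⊥ : IntermediateField ℚ Qb)]
    (v : HeightOneSpectrum (𝓞 (⊥ : IntermediateField ℚ Qb)))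
    (hv : ∀ ι : Qb →ₐ[(⊥ : IntermediateField ℚ Qb)]
        AlgebraicClosure (v.adicCompletion (⊥ : IntermediateField ℚ Qb)),
      FiniteDimensional (v.adicCompletion (⊥ : IntermediateField ℚ Qb))
        (IntermediateField.adjoin (v.adicCompletion (⊥ : IntermediateField ℚ Qb))
          (ι '' (extendScalars (bot_le : ⊥ ≤ F) : Set Qb)))) :
    (2 : 𝓞 (⊥ : IntermediateField ℚ Qb)) ∈ v.asIdeal := by
  classical
  by_contra h2
  -- the residue characteristic
  obtain ⟨p, hp, hpv⟩ : ∃ p : ℕ, p.Prime ∧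
      (p : 𝓞 (⊥ : IntermediateField ℚ Qb)) ∈ v.asIdeal := by
    have h0 : Ideal.absNorm v.asIdeal ≠ 0 := by
      rw [Ne, Ideal.absNorm_eq_zero_iff]
      exact v.ne_bot
    exact exists_prime_mem v.asIdeal v.isPrime _ h0 (Ideal.absNorm_mem v.asIdeal)
  have hp2 : p ≠ 2 := by
    rintro rfl
    exact h2 (by exact_mod_cast hpv)
  have halg : Algebra.IsAlgebraic (⊥ : IntermediateField ℚ Qb) Qb := by
    have : Algebra.IsAlgebraic ℚ Qb := ⟨fun x => (qb_isIntegral x).isAlgebraic⟩
    exact Algebra.IsAlgebraic.tower_top (K := ℚ) (⊥ : IntermediateField ℚ Qb)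
  let ι : Qb →ₐ[(⊥ : IntermediateField ℚ Qb)]
        AlgebraicClosure (v.adicCompletion (⊥ : IntermediateField ℚ Qb)) := IsAlgClosed.lift
  have hfin := hv ι
  set Kv := v.adicCompletion (⊥ : IntermediateField ℚ Qb) with hKv
  set T : IntermediateField Kv (AlgebraicClosure Kv) := IntermediateField.adjoin Kv
    (ι '' (extendScalars (bot_le : ⊥ ≤ F) : Set Qb)) with hT
  obtain ⟨M, hMF, l, hl, hres, hMfd, hMgal, hMfr, hMsub⟩ := hF (max p (finrank Kv T))
  have hnorm : NormSub M := normSub_of_galSub M hMgal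
  have hchar : CharZero Kv := charZero_of_injective_algebraMap
    (algebraMap (⊥ : IntermediateField ℚ Qb) Kv).injective
  have hcharL : CharZero (AlgebraicClosure Kv) := charZero_of_injective_algebraMap
    (algebraMap Kv (AlgebraicClosure Kv)).injective
  let ι' : Qb →ₐ[ℚ] AlgebraicClosure Kv := RingHom.toRatAlgHom (ι : Qb →+* AlgebraicClosure Kv)
  have hkey : finrank ℚ M ≤ finrank Kv T := by
    apply degree_le (K := ℚ) (Kv := Kv) ι' M hnorm _ T
    · intro x hx
      exact IntermediateField.subset_adjoin _ _ ⟨x, hMF hx, rfl⟩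
    · intro M' hM' hrange
      by_contra hne
      obtain ⟨s, hsM, hs⟩ := hMsub M' hM' hne
      obtain ⟨y, hy⟩ := hrange s hsM
      have hy2 : y ^ 2 = algebraMap (⊥ : IntermediateField ℚ Qb) Kv
          (algebraMap (𝓞 (⊥ : IntermediateField ℚ Qb)) (⊥ : IntermediateField ℚ Qb)
            (l : 𝓞 (⊥ : IntermediateField ℚ Qb))) := by
        apply (algebraMap Kv (AlgebraicClosure Kv)).injective
        rw [map_pow, hy, ← map_pow, hs]
        simp
      obtain ⟨x, hx⟩ := sq_mod v _ y hy2
      obtain ⟨m, hm⟩ := int_bot x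
      rw [hm] at hx
      refine hres p hp hp2 (le_max_left _ _) m ?_
      apply dvd_of_mem v.asIdeal v.isPrime p hp hpv
      push_cast
      exact hx
  rw [hMfr] at hkey
  have h3 : finrank Kv T ≤ max p (finrank Kv T) := le_max_right _ _
  have h4 : max p (finrank Kv T) < 2 ^ (max p (finrank Kv T)) := Nat.lt_two_pow_self
  have h5 : 2 ^ (max p (finrank Kv T)) ≤ 2 ^ (max p (finrank Kv T) + 2) :=
    Nat.pow_le_pow_right (by norm_num) (by omega)
  omega

end Pool.Agent.V11286.LDeg
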